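import Mathlib

/-!
# Pro-p completions and virtual maps onto the p-adic integers (MP_3f8898_al)
-/

set_option autoImplicit false

open Set Topology
open scoped DirectSum

namespace Pool.Agent.Lib_helper96.VR

/-- The normal subgroups of `p`-power index. -/
def PNormal (p : ℕ) (G : Type) [Group G] : Type :=
  {N : Subgroup G // N.Normal ∧ ∃ k : ℕ, N.index = p ^ k}

instance {p : ℕ} {G : Type} [Group G] (N : PNormal p G) : N.1.Normal := N.2.1

/-- The finite quotient `G / N`. -/
def Quo {p : ℕ} {G : Type} [Group G] (N : PNormal p G) : Type := G ⧸ N.1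

instance quoGroup {p : ℕ} {G : Type} [Group G] (N : PNormal p G) : Group (Quo N) :=
  QuotientGroup.Quotient.group N.1

/-- The finite quotients `G / N` are discrete. -/
instance quoTop {p : ℕ} {G : Type} [Group G] (N : PNormal p G) : TopologicalSpace (Quo N) := ⊥

instance quoDisc {p : ℕ} {G : Type} [Group G] (N : PNormal p G) : DiscreteTopology (Quo N) :=
  ⟨rfl⟩

/-- The quotient map. -/
def toQuo {p : ℕ} {G : Type} [Group G] (N : PNormal p G) : G →* Quo N := QuotientGroup.mk' N.1

theorem toQuo_surj {p : ℕ} {G : Type} [Group G] (N : PNormal p G) :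
    Function.Surjective (toQuo N) := QuotientGroup.mk'_surjective N.1

theorem toQuo_eq {p : ℕ} {G : Type} [Group G] (N : PNormal p G) {g h : G} :
    toQuo N g = toQuo N h ↔ g⁻¹ * h ∈ N.1 := QuotientGroup.eq

/-- The families of cosets `x_N` of `N`, compatible with the projections: if `N ≤ M` and
`x_N = g N` then `x_M = g M`. -/
def Compatible {p : ℕ} {G : Type} [Group G] (x : ∀ N : PNormal p G, Quo N) : Prop :=
  ∀ N M : PNormal p G, N.1 ≤ M.1 → ∀ g : G, x N = toQuo N g → x M = toQuo M g

theorem compatible_one {p : ℕ} {G : Type} [Group G] :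
    Compatible (1 : ∀ N : PNormal p G, Quo N) := by
  intro N M h g hg
  have h1 : toQuo N 1 = toQuo N g := by rw [map_one]; exact hg
  have h2 := (toQuo_eq M).2 (h ((toQuo_eq N).1 h1))
  rw [map_one] at h2
  exact h2

theorem compatible_mul {p : ℕ} {G : Type} [Group G] {x y : ∀ N : PNormal p G, Quo N}
    (hx : Compatible x) (hy : Compatible y) : Compatible (x * y) := by
  intro N M h g hg
  obtain ⟨a, ha⟩ := toQuo_surj N (x N)
  obtain ⟨b, hb⟩ := toQuo_surj N (y N)
  have h1 : toQuo N (a * b) = toQuo N g := by rw [map_mul, ha, hb]; exact hg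
  have h2 := (toQuo_eq M).2 (h ((toQuo_eq N).1 h1))
  rw [Pi.mul_apply, hx N M h a ha.symm, hy N M h b hb.symm, ← map_mul]
  exact h2

theorem compatible_inv {p : ℕ} {G : Type} [Group G] {x : ∀ N : PNormal p G, Quo N}
    (hx : Compatible x) : Compatible x⁻¹ := by
  intro N M h g hg
  obtain ⟨a, ha⟩ := toQuo_surj N (x N)
  have h1 : toQuo N a⁻¹ = toQuo N g := by rw [map_inv, ha]; exact hg
  have h2 := (toQuo_eq M).2 (h ((toQuo_eq N).1 h1))
  rw [Pi.inv_apply, hx N M h a ha.symm, ← map_inv]
  exact h2

/-- The compatible families form a group. -/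
def compSubgroup (p : ℕ) (G : Type) [Group G] : Subgroup (∀ N : PNormal p G, Quo N) where
  carrier := {x | Compatible x}
  one_mem' := compatible_one
  mul_mem' := compatible_mul
  inv_mem' := compatible_inv

/-- The pro-`p` completion: the inverse limit of the quotients `G / N`, `N` normal of `p`-power
index, with the topology of the product of the discrete quotients. -/
def ProP (p : ℕ) (G : Type) [Group G] : Type := compSubgroup p G

instance proPGroup (p : ℕ) (G : Type) [Group G] : Group (ProP p G) :=
  (compSubgroup p G).toGroup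

instance proPTop (p : ℕ) (G : Type) [Group G] : TopologicalSpace (ProP p G) :=
  instTopologicalSpaceSubtype

instance proPTopGroup (p : ℕ) (G : Type) [Group G] : IsTopologicalGroup (ProP p G) :=
  inferInstanceAs (IsTopologicalGroup (compSubgroup p G))

/-- The iterated commutator subgroups of a subgroup `U`. -/
def Der {Γ : Type} [Group Γ] (U : Subgroup Γ) : ℕ → Subgroup Γ
  | 0 => U
  | d + 1 => ⁅Der U d, Der U d⁆

/-- Some open subgroup `U` has infinite topological abelianization: the closure of `[U, U]` has
infinite index. -/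
def NotFAb (Γ : Type) [Group Γ] [TopologicalSpace Γ] [IsTopologicalGroup Γ] : Prop :=
  ∃ U : Subgroup Γ, IsOpen (U : Set Γ) ∧ ¬ (⁅U, U⁆ : Subgroup Γ).topologicalClosure.FiniteIndex

/-- Some open subgroup has an iterated commutator subgroup whose closure has infinite index. -/
def InfVSol (Γ : Type) [Group Γ] [TopologicalSpace Γ] [IsTopologicalGroup Γ] : Prop :=
  ∃ U : Subgroup Γ, IsOpen (U : Set Γ) ∧ ∃ d : ℕ, ¬ (Der U d).topologicalClosure.FiniteIndex

/-- `H` has a homomorphism to the `p`-adic integers with dense image. -/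
def Representable (p : ℕ) [Fact p.Prime] (H : Type) [Group H] : Prop :=
  ∃ f : H →* Multiplicative ℤ_[p], DenseRange f

/-- Some subgroup of finite index is representable onto the `p`-adic integers. -/
def VirtuallyRepresentable (p : ℕ) [Fact p.Prime] (G : Type) [Group G] : Prop :=
  ∃ H : Subgroup G, H.FiniteIndex ∧ Representable p H

/-- `H` contains a normal subgroup of `p`-power index. -/
def ProPOpen (p : ℕ) {G : Type} [Group G] (H : Subgroup G) : Prop :=
  ∃ N : Subgroup G, N.Normal ∧ (∃ k : ℕ, N.index = p ^ k) ∧ N ≤ H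

section rep

/-- an infinite finitely generated abelian group maps onto `ℤ` -/
theorem exists_surj {A : Type} [CommGroup A] [Group.FG A] [Infinite A] :
    ∃ f : A →* Multiplicative ℤ, Function.Surjective f := by
  classical
  have : AddGroup.FG (Additive A) := inferInstance
  obtain ⟨n, ι, _, q, hq, e, ⟨φ⟩⟩ := AddCommGroup.equiv_free_prod_directSum_zmod (Additive A)
  rcases Nat.eq_zero_or_pos n with h0 | hn
  · exfalso
    subst h0
    have : Finite (⨁ i : ι, ZMod (q i ^ e i)) := by
      have : ∀ i, NeZero (q i ^ e i) := fun i => ⟨pow_ne_zero _ (hq i).ne_zero⟩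
      exact Finite.of_equiv _ (DirectSum.addEquivProd (fun i => ZMod (q i ^ e i))).symm.toEquiv
    have : Finite ((Fin 0 →₀ ℤ) × ⨁ i : ι, ZMod (q i ^ e i)) := inferInstance
    have : Finite (Additive A) := Finite.of_equiv _ φ.symm.toEquiv
    have : Finite A := Finite.of_equiv _ (Additive.ofMul (α := A)).symm
    exact not_finite A
  · let g : Additive A →+ ℤ :=
      ((Finsupp.applyAddHom (⟨0, hn⟩ : Fin n)).comp (AddMonoidHom.fst _ _)).comp φ.toAddMonoidHom
    have hg : Function.Surjective g := by
      intro z
      refine ⟨φ.symm (Finsupp.single ⟨0, hn⟩ z, 0), ?_⟩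
      simp [g]
    refine ⟨AddMonoidHom.toMultiplicativeRight g, ?_⟩
    intro z
    obtain ⟨a, ha⟩ := hg z.toAdd
    exact ⟨a.toMul, by rw [← ofAdd_toAdd z, ← ha]; rfl⟩

theorem rep_of_infinite (p : ℕ) [Fact p.Prime] {H : Type} [Group H] [Group.FG H]
    (h : Infinite (Abelianization H)) : Representable p H := by
  have : Group.FG (Abelianization H) := inferInstanceAs (Group.FG (H ⧸ commutator H))
  obtain ⟨f, hf⟩ := exists_surj (A := Abelianization H)
  let c : Multiplicative ℤ →* Multiplicative ℤ_[p] :=
    AddMonoidHom.toMultiplicative (Int.castAddHom ℤ_[p])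
  have hc : DenseRange c := PadicInt.denseRange_intCast
  refine ⟨(c.comp f).comp Abelianization.of, ?_⟩
  have hs : Function.Surjective (f.comp (Abelianization.of (G := H))) := by
    intro z
    obtain ⟨a, ha⟩ := hf z
    obtain ⟨x, hx⟩ := QuotientGroup.mk_surjective a
    exact ⟨x, by rw [← ha, ← hx]; rfl⟩
  have : ((c.comp f).comp (Abelianization.of (G := H)) : H → Multiplicative ℤ_[p]) =
      c ∘ (f.comp (Abelianization.of (G := H))) := rfl
  rw [this]
  exact hc.comp hs.denseRange (by fun_prop)

theorem infinite_of_rep (p : ℕ) [Fact p.Prime] {H : Type} [Group H]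
    (h : Representable p H) : Infinite (Abelianization H) := by
  obtain ⟨f, hf⟩ := h
  by_contra hfin
  rw [not_infinite_iff_finite] at hfin
  have hr : range f ⊆ range (Abelianization.lift f) := by
    rintro _ ⟨x, rfl⟩
    exact ⟨Abelianization.of x, by simp⟩
  have hfr : (range f).Finite := (Set.finite_range _).subset hr
  have huniv : range f = univ := by
    have h1 := hf.closure_range
    rwa [hfr.isClosed.closure_eq] at h1
  rw [huniv] at hfr
  have : Finite (Multiplicative ℤ_[p]) := Set.finite_univ_iff.1 hfr
  have : Finite ℤ_[p] := Finite.of_equiv _ (Multiplicative.toAdd (α := ℤ_[p]))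
  exact not_finite ℤ_[p]

end rep

end Pool.Agent.Lib_helper96.VR
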