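import Pool.Agent.Lib_helper96.VR.Top

/-!
# The pro-p completion and its open subgroups (MP_3f8898_al)
-/

set_option autoImplicit false

open Set Topology
open scoped commutatorElement

namespace Pool.Agent.Lib_helper96.VR

variable {p : ℕ} {G : Type} [Group G]

/-- the canonical map to the pro-`p` completion -/
def toProP (p : ℕ) (G : Type) [Group G] : G →* ProP p G where
  toFun g := ⟨fun N => toQuo N g, fun N M h _ ha =>
    (toQuo_eq M).2 (h ((toQuo_eq N).1 ha))⟩
  map_one' := rfl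
  map_mul' _ _ := rfl

/-- the projection of the pro-`p` completion to `G / N` -/
def proj (N : PNormal p G) : ProP p G →* Quo N where
  toFun x := x.1 N
  map_one' := rfl
  map_mul' _ _ := rfl

theorem proj_toProP (N : PNormal p G) (g : G) : proj N (toProP p G g) = toQuo N g := rfl

theorem continuous_proj (N : PNormal p G) : Continuous (proj (p := p) (G := G) N) :=
  (continuous_apply N).comp (continuous_subtype_val (p := fun x => x ∈ compSubgroup p G))

theorem proj_surj (N : PNormal p G) : Function.Surjective (proj (p := p) (G := G) N) := by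
  intro q
  obtain ⟨g, rfl⟩ := toQuo_surj N q
  exact ⟨toProP p G g, rfl⟩

theorem exists_inf [hp : Fact p.Prime] (N M : PNormal p G) :
    ∃ L : PNormal p G, L.1 ≤ N.1 ∧ L.1 ≤ M.1 := by
  obtain ⟨k, hk⟩ := N.2.2
  obtain ⟨l, hl⟩ := M.2.2
  refine ⟨⟨N.1 ⊓ M.1, inferInstance, ?_⟩, inf_le_left, inf_le_right⟩
  have h1 : (N.1 ⊓ M.1).index = M.1.relIndex N.1 * N.1.index := by
    rw [← Subgroup.relIndex_mul_index (inf_le_left : N.1 ⊓ M.1 ≤ N.1),
      Subgroup.inf_relIndex_left]
  have h2 : (N.1 ⊓ M.1).index ∣ p ^ (l + k) := by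
    rw [h1, pow_add, ← hk, ← hl]
    exact Nat.mul_dvd_mul (Subgroup.relIndex_dvd_index_of_normal _ _) dvd_rfl
  obtain ⟨j, _, hj⟩ := (Nat.dvd_prime_pow hp.out).1 h2
  exact ⟨j, hj⟩

theorem exists_finset_inf [hp : Fact p.Prime] (I : Finset (PNormal p G)) :
    ∃ L : PNormal p G, ∀ M ∈ I, L.1 ≤ M.1 := by
  classical
  induction I using Finset.induction_on with
  | empty => exact ⟨⟨⊤, inferInstance, 0, by simp⟩, by simp⟩
  | insert N I _ ih =>
    obtain ⟨L, hL⟩ := ih
    obtain ⟨L', h1, h2⟩ := exists_inf L N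
    refine ⟨L', fun M hM => ?_⟩
    rcases Finset.mem_insert.1 hM with rfl | hM
    · exact h2
    · exact h1.trans (hL M hM)

theorem compat (x : ProP p G) {N M : PNormal p G} (h : N.1 ≤ M.1) {g : G}
    (hg : proj N x = toQuo N g) : proj M x = toQuo M g := x.2 N M h g hg

/-- basic neighbourhoods -/
theorem exists_nhd [hp : Fact p.Prime] {V : Set (ProP p G)} (hV : IsOpen V) {x : ProP p G}
    (hx : x ∈ V) : ∃ N : PNormal p G, ∀ y : ProP p G, proj N y = proj N x → y ∈ V := by
  obtain ⟨W, hW, hVW⟩ := isOpen_induced_iff.1 hV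
  subst hVW
  obtain ⟨I, u, hu, hI⟩ := isOpen_pi_iff.1 hW x.1 hx
  obtain ⟨N, hN⟩ := exists_finset_inf I
  refine ⟨N, fun y hy => hI ?_⟩
  intro M hM
  obtain ⟨g, hg⟩ := toQuo_surj N (proj N x)
  have h1 := compat x (hN M hM) hg.symm
  have h2 := compat y (hN M hM) (hy.trans hg.symm)
  have h3 : y.1 M = x.1 M := h2.trans h1.symm
  rw [h3]
  exact (hu M hM).2

theorem denseRange_toProP [hp : Fact p.Prime] : DenseRange (toProP p G) := by
  intro x
  rw [mem_closure_iff]
  intro V hV hx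
  obtain ⟨N, hN⟩ := exists_nhd hV hx
  obtain ⟨g, hg⟩ := toQuo_surj N (proj N x)
  exact ⟨toProP p G g, hN _ hg, mem_range_self g⟩

theorem pnormal_fin [hp : Fact p.Prime] (N : PNormal p G) : N.1.FiniteIndex := by
  obtain ⟨k, hk⟩ := N.2.2
  exact ⟨by rw [hk]; exact pow_ne_zero _ hp.out.ne_zero⟩

theorem open_le [hp : Fact p.Prime] {U : Subgroup (ProP p G)} (hU : IsOpen (U : Set (ProP p G))) :
    ∃ N : PNormal p G, (proj N).ker ≤ U := by
  obtain ⟨N, hN⟩ := exists_nhd hU (one_mem U)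
  refine ⟨N, fun y hy => hN y ?_⟩
  rw [MonoidHom.mem_ker] at hy
  rw [hy, map_one]

theorem open_fin [hp : Fact p.Prime] {U : Subgroup (ProP p G)}
    (hU : IsOpen (U : Set (ProP p G))) : U.FiniteIndex := by
  obtain ⟨N, hN⟩ := open_le hU
  have h1 : (proj (p := p) (G := G) N).ker.FiniteIndex := by
    constructor
    rw [Subgroup.index_ker, MonoidHom.range_eq_top_of_surjective _ (proj_surj N)]
    have := pnormal_fin N
    have h2 : Finite (Quo N) := inferInstanceAs (Finite (G ⧸ N.1))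
    exact Nat.card_pos.ne'
  exact Subgroup.finiteIndex_of_le hN

theorem comap_open [hp : Fact p.Prime] {U : Subgroup (ProP p G)}
    (hU : IsOpen (U : Set (ProP p G))) : ProPOpen p (U.comap (toProP p G)) := by
  obtain ⟨N, hN⟩ := open_le hU
  refine ⟨N.1, N.2.1, N.2.2, fun g hg => hN ?_⟩
  rw [MonoidHom.mem_ker, proj_toProP]
  exact (QuotientGroup.eq_one_iff g).2 hg

theorem ProPOpen.fin [hp : Fact p.Prime] {H : Subgroup G} (h : ProPOpen p H) :
    H.FiniteIndex := by
  obtain ⟨N, h1, ⟨k, hk⟩, h2⟩ := h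
  have : N.FiniteIndex := ⟨by rw [hk]; exact pow_ne_zero _ hp.out.ne_zero⟩
  exact Subgroup.finiteIndex_of_le h2

end Pool.Agent.Lib_helper96.VR
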