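import Pool.Agent.Lib_helper96.VR.Comp

/-!
# Reduction to completions all of whose open subgroups have finite abelianization
(MP_3f8898_al)
-/

set_option autoImplicit false

open Set Topology
open scoped commutatorElement

namespace Pool.Agent.Lib_helper96.VR

variable {p : ℕ} {G : Type} [Group G]

theorem isClosed_comap (L : PNormal p G) (S : Subgroup (Quo L)) :
    IsClosed ((S.comap (proj L) : Subgroup (ProP p G)) : Set (ProP p G)) :=
  (isClosed_discrete (S : Set (Quo L))).preimage (continuous_proj L)

/-- the kernels of the reductions modulo `p ^ k` contain normal subgroups of `p`-power index -/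
theorem core_pnormal [hp : Fact p.Prime] {H : Subgroup G} (N : PNormal p G) (hN : N.1 ≤ H)
    {k : ℕ} (ψ : H →* Multiplicative (ZMod (p ^ k))) (hψ : Function.Surjective ψ) :
    ∃ L : PNormal p G, L.1 ≤ ψ.ker.map H.subtype := by
  classical
  have hNf := pnormal_fin N
  have hHf : H.FiniteIndex := Subgroup.finiteIndex_of_le hN
  have hk0 : p ^ k ≠ 0 := pow_ne_zero _ hp.out.ne_zero
  have hcard : Nat.card (Multiplicative (ZMod (p ^ k))) = p ^ k := by
    rw [Nat.card_congr (Multiplicative.toAdd (α := ZMod (p ^ k))), Nat.card_zmod]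
  have hK : (ψ.ker.map H.subtype).FiniteIndex := by
    constructor
    rw [Subgroup.index_map_subtype, Subgroup.index_ker,
      MonoidHom.range_eq_top_of_surjective _ hψ, Nat.card_congr Subgroup.topEquiv.toEquiv, hcard]
    exact mul_ne_zero hk0 hHf.index_ne_zero
  set K := ψ.ker.map H.subtype with hKdef
  obtain ⟨m, hm⟩ := N.2.2
  have hpow : ∀ x : G, x ^ (p ^ m * p ^ k) ∈ K.normalCore := by
    intro x b
    have h1 : x ^ p ^ m ∈ N.1 := by
      rw [← hm]
      exact N.1.pow_index_mem x
    have h2 : b * x ^ p ^ m * b⁻¹ ∈ N.1 := N.2.1.conj_mem _ h1 b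
    have h3 : b * x ^ (p ^ m * p ^ k) * b⁻¹ = (b * x ^ p ^ m * b⁻¹) ^ p ^ k := by
      rw [conj_pow, pow_mul]
    rw [h3]
    refine ⟨⟨b * x ^ p ^ m * b⁻¹, hN h2⟩ ^ p ^ k, ?_, rfl⟩
    rw [SetLike.mem_coe, MonoidHom.mem_ker, map_pow]
    have := pow_card_eq_one' (G := Multiplicative (ZMod (p ^ k)))
      (x := ψ ⟨b * x ^ p ^ m * b⁻¹, hN h2⟩)
    rwa [hcard] at this
  have hLf : K.normalCore.FiniteIndex := inferInstance
  have hpg : IsPGroup p (G ⧸ K.normalCore) := by
    intro q
    obtain ⟨x, rfl⟩ := QuotientGroup.mk_surjective q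
    refine ⟨m + k, ?_⟩
    rw [pow_add, ← QuotientGroup.mk_pow, QuotientGroup.eq_one_iff]
    exact hpow x
  obtain ⟨j, hj⟩ := IsPGroup.iff_card.1 hpg
  exact ⟨⟨K.normalCore, inferInstance, j, hj⟩, K.normalCore_le⟩

/-- A representable subgroup which is open in the pro-`p` topology makes the commutator subgroup
of an open subgroup of the completion of infinite index. -/
theorem not_fab_of_rep [hp : Fact p.Prime] [Group.FG G] {H : Subgroup G} (hH : ProPOpen p H)
    (hr : Representable p H) : NotFAb (ProP p G) := by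
  classical
  have hHf := hH.fin
  obtain ⟨N, hN⟩ : ∃ N : PNormal p G, N.1 ≤ H := by
    obtain ⟨N', h1, h2, hN⟩ := hH
    exact ⟨⟨N', h1, h2⟩, hN⟩
  have hfg : Group.FG H := Subgroup.fg_of_index_ne_zero H
  have hinf := infinite_of_rep p hr
  have hfg' : Group.FG (Abelianization H) := inferInstanceAs (Group.FG (H ⧸ commutator H))
  obtain ⟨f, hf⟩ := exists_surj (A := Abelianization H)
  have hφ : Function.Surjective (f.comp (Abelianization.of (G := H))) := by
    intro z
    obtain ⟨a, ha⟩ := hf z
    obtain ⟨x, hx⟩ := QuotientGroup.mk_surjective a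
    exact ⟨x, by rw [← ha, ← hx]; rfl⟩
  set φ := f.comp (Abelianization.of (G := H)) with hφdef
  refine ⟨(H.map (toQuo N)).comap (proj N), ?_, ?_⟩
  · exact (isOpen_discrete ((H.map (toQuo N) : Subgroup _) : Set (Quo N))).preimage
      (continuous_proj N)
  · intro hfin
    set U : Subgroup (ProP p G) := (H.map (toQuo N)).comap (proj N) with hU
    set n := (⁅U, U⁆ : Subgroup (ProP p G)).topologicalClosure.index with hn
    have hn0 : n ≠ 0 := hfin.index_ne_zero
    -- reduce modulo p ^ n
    let c : Multiplicative ℤ →* Multiplicative (ZMod (p ^ n)) :=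
      AddMonoidHom.toMultiplicative (Int.castAddHom (ZMod (p ^ n)))
    have hc : Function.Surjective c := by
      intro z
      obtain ⟨a, ha⟩ := ZMod.intCast_surjective z.toAdd
      exact ⟨Multiplicative.ofAdd a, by
        change Multiplicative.ofAdd ((a : ℤ) : ZMod (p ^ n)) = z
        rw [ha]; rfl⟩
    have hψ : Function.Surjective (c.comp φ) := hc.comp hφ
    obtain ⟨L, hL⟩ := core_pnormal N hN (c.comp φ) hψ
    set K := (c.comp φ).ker.map H.subtype with hK
    obtain ⟨P, hPN, hPL⟩ := exists_inf N L
    -- elements of U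
    have hUmem : ∀ a ∈ U, ∃ g : G, g ∈ H ∧ proj L a = toQuo L g := by
      intro a ha
      obtain ⟨g, hg⟩ := toQuo_surj P (proj P a)
      have e1 := compat a hPN hg.symm
      have e2 := compat a hPL hg.symm
      obtain ⟨h, hh, hh'⟩ := ha
      refine ⟨g, ?_, e2⟩
      have e4 : h⁻¹ * g ∈ N.1 := (toQuo_eq N).1 (hh'.trans e1)
      have e5 := H.mul_mem hh (hN e4)
      simpa using e5
    set W : Subgroup (ProP p G) := (K.map (toQuo L)).comap (proj L) with hW
    have hle : (⁅U, U⁆ : Subgroup (ProP p G)) ≤ W := by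
      rw [Subgroup.commutator_le]
      intro a ha b hb
      obtain ⟨g, hg, hg'⟩ := hUmem a ha
      obtain ⟨g2, hg2, hg2'⟩ := hUmem b hb
      rw [hW, Subgroup.mem_comap, map_commutatorElement, hg', hg2']
      refine ⟨⁅g, g2⁆, ?_, by rw [map_commutatorElement]⟩
      refine ⟨⁅(⟨g, hg⟩ : H), ⟨g2, hg2⟩⁆, ?_, rfl⟩
      rw [SetLike.mem_coe, MonoidHom.mem_ker, map_commutatorElement]
      exact commutatorElement_eq_one_iff_mul_comm.2 (mul_comm _ _)
    have hcl : (⁅U, U⁆ : Subgroup (ProP p G)).topologicalClosure ≤ W :=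
      Subgroup.topologicalClosure_minimal _ hle (isClosed_comap L _)
    have hWi : W.index = p ^ n * H.index := by
      rw [hW, Subgroup.index_comap_of_surjective _ (proj_surj L),
        Subgroup.index_map_eq _ (toQuo_surj L) (by
          have hker : (toQuo L).ker = L.1 := QuotientGroup.ker_mk' L.1
          rw [hker]
          exact hL), hK, Subgroup.index_map_subtype,
        Subgroup.index_ker, MonoidHom.range_eq_top_of_surjective _ hψ,
        Nat.card_congr Subgroup.topEquiv.toEquiv,
        Nat.card_congr (Multiplicative.toAdd (α := ZMod (p ^ n))), Nat.card_zmod]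
    have hdvd : W.index ∣ n := Subgroup.index_dvd_of_le hcl
    rw [hWi] at hdvd
    have h4 : p ^ n ∣ n := (Dvd.intro _ rfl).trans hdvd
    have h5 := Nat.le_of_dvd (Nat.pos_of_ne_zero hn0) h4
    exact absurd h5 (not_le.2 (Nat.lt_pow_self hp.out.one_lt))

/-- Conversely. -/
theorem rep_of_not_fab [hp : Fact p.Prime] [Group.FG G] {U : Subgroup (ProP p G)}
    (hU : IsOpen (U : Set (ProP p G)))
    (hc : ¬ (⁅U, U⁆ : Subgroup (ProP p G)).topologicalClosure.FiniteIndex) :
    ∃ H : Subgroup G, ProPOpen p H ∧ Representable p H := by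
  have h1 := comap_open hU
  have hf := h1.fin
  refine ⟨_, h1, ?_⟩
  have hfg : Group.FG (U.comap (toProP p G)) := Subgroup.fg_of_index_ne_zero _
  exact rep_of_infinite p (inf_ab_of_open (toProP p G) denseRange_toProP U hc hf)

/-- virtually infinite abelianization -/
theorem vr_iff [hp : Fact p.Prime] [Group.FG G] :
    VirtuallyRepresentable p G ↔ ∃ H : Subgroup G, H.FiniteIndex ∧ Infinite (Abelianization H) := by
  constructor
  · rintro ⟨H, h1, h2⟩
    exact ⟨H, h1, infinite_of_rep p h2⟩
  · rintro ⟨H, h1, h2⟩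
    have hfg : Group.FG H := Subgroup.fg_of_index_ne_zero _
    exact ⟨H, h1, rep_of_infinite p h2⟩

/-- infinite virtually soluble quotients -/
theorem vsol_iff : (∃ H : Subgroup G, H.FiniteIndex ∧ Infinite (Abelianization H)) ↔
    ∃ H : Subgroup G, H.FiniteIndex ∧ ∃ d : ℕ, ¬ (Der H d).FiniteIndex := by
  constructor
  · rintro ⟨H, h1, h2⟩
    refine ⟨H, h1, 1, fun h => ?_⟩
    have e : Der H 1 = (commutator H).map H.subtype := by
      rw [commutator_def, Subgroup.map_commutator, ← MonoidHom.range_eq_map, Subgroup.range_subtype]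
      rfl
    rw [e] at h
    have h3 := h.index_ne_zero
    rw [Subgroup.index_map_subtype] at h3
    have h4 : (commutator H).FiniteIndex := ⟨(mul_ne_zero_iff.1 h3).1⟩
    have h5 : Finite (H ⧸ commutator H) := inferInstance
    exact (not_finite_iff_infinite.2 h2) h5
  · rintro ⟨H, h1, d, hd⟩
    by_contra hno
    push Not at hno
    apply hd
    clear hd
    induction d with
    | zero => exact h1
    | succ d ih =>
      have h2 := hno _ ih
      have h3 : Finite (Der H d ⧸ commutator (Der H d)) := h2
      have h4 : (commutator (Der H d)).FiniteIndex := Subgroup.finiteIndex_of_finite_quotient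
      have e : Der H (d + 1) = (commutator (Der H d)).map (Der H d).subtype := by
        rw [commutator_def, Subgroup.map_commutator, ← MonoidHom.range_eq_map,
          Subgroup.range_subtype]
        rfl
      rw [e]
      constructor
      rw [Subgroup.index_map_subtype]
      exact mul_ne_zero h4.index_ne_zero ih.index_ne_zero

/-- infinite virtually soluble quotients of the completion -/
theorem fab_iff [hp : Fact p.Prime] : NotFAb (ProP p G) ↔ InfVSol (ProP p G) := by
  constructor
  · rintro ⟨U, h1, h2⟩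
    exact ⟨U, h1, 1, h2⟩
  · rintro ⟨U, h1, d, h2⟩
    by_contra hno
    simp only [NotFAb, not_exists, not_and, not_not] at hno
    exact h2 (der_fin hno (fun V hV => open_fin hV) U h1 d)

theorem rep_top [hp : Fact p.Prime] {H : Type} [Group H] (h : Representable p H) :
    Representable p (⊤ : Subgroup H) := by
  obtain ⟨f, hf⟩ := h
  refine ⟨f.comp (⊤ : Subgroup H).subtype, ?_⟩
  have hs : Function.Surjective ((⊤ : Subgroup H).subtype) := fun x => ⟨⟨x, trivial⟩, rfl⟩
  have e : (f.comp (⊤ : Subgroup H).subtype : (⊤ : Subgroup H) → Multiplicative ℤ_[p]) =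
      f ∘ ((⊤ : Subgroup H).subtype) := rfl
  rw [e, DenseRange, hs.range_comp]
  exact hf

/-- Virtual representability in terms of the completions of the subgroups of finite index. -/
theorem vr_iff_fab [hp : Fact p.Prime] [Group.FG G] :
    VirtuallyRepresentable p G ↔ ∃ H : Subgroup G, H.FiniteIndex ∧ NotFAb (ProP p H) := by
  constructor
  · rintro ⟨H, h1, h2⟩
    have hfg : Group.FG H := Subgroup.fg_of_index_ne_zero _
    refine ⟨H, h1, not_fab_of_rep (H := (⊤ : Subgroup H)) ⟨⊤, inferInstance, ⟨0, by simp⟩, le_rfl⟩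
      (rep_top h2)⟩
  · rintro ⟨H, h1, U, hU, hc⟩
    have hfg : Group.FG H := Subgroup.fg_of_index_ne_zero _
    obtain ⟨K, hK, hr⟩ := rep_of_not_fab hU hc
    have hKf := hK.fin
    have h3 := infinite_of_rep p hr
    refine vr_iff.2 ⟨K.map H.subtype, ?_, ?_⟩
    · constructor
      rw [Subgroup.index_map_subtype]
      exact mul_ne_zero hKf.index_ne_zero h1.index_ne_zero
    · have e := K.equivMapOfInjective H.subtype H.subtype_injective
      exact Infinite.of_injective _ (MulEquiv.abelianizationCongr e).injective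

end Pool.Agent.Lib_helper96.VR
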