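import Pool.Agent.Lib_helper96.VR.Basic

/-!
# Commutator subgroups of open subgroups and dense homomorphisms (MP_3f8898_al)
-/

set_option autoImplicit false

open Set Topology
open scoped commutatorElement

namespace Pool.Agent.Lib_helper96.VR

section gen

variable {Γ : Type} [Group Γ] [TopologicalSpace Γ] [IsTopologicalGroup Γ]

theorem comm_closure_le (S : Subgroup Γ) :
    ⁅S.topologicalClosure, S.topologicalClosure⁆ ≤ (⁅S, S⁆ : Subgroup Γ).topologicalClosure := by
  rw [Subgroup.commutator_le]
  intro a ha b hb
  have hc : Continuous (Function.uncurry fun x y : Γ => ⁅x, y⁆) := by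
    simp only [commutatorElement_def]
    fun_prop
  have h := map_mem_closure₂ (f := fun x y : Γ => ⁅x, y⁆) (s := (S : Set Γ)) (t := (S : Set Γ))
    (u := ((⁅S, S⁆ : Subgroup Γ) : Set Γ)) hc ha hb
    (fun x hx y hy => Subgroup.commutator_mem_commutator hx hy)
  exact h

theorem open_of_fin {S : Subgroup Γ} (h : S.topologicalClosure.FiniteIndex) :
    IsOpen (S.topologicalClosure : Set Γ) :=
  Subgroup.isOpen_of_isClosed_of_finiteIndex _ S.isClosed_topologicalClosure

/-- If all commutator subgroups of open subgroups have finite index closures then so do all the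
iterated ones. -/
theorem der_fin (h : ∀ U : Subgroup Γ, IsOpen (U : Set Γ) →
      (⁅U, U⁆ : Subgroup Γ).topologicalClosure.FiniteIndex)
    (hfin : ∀ U : Subgroup Γ, IsOpen (U : Set Γ) → U.FiniteIndex)
    (U : Subgroup Γ) (hU : IsOpen (U : Set Γ)) (d : ℕ) :
    (Der U d).topologicalClosure.FiniteIndex := by
  induction d with
  | zero =>
    have := hfin U hU
    exact Subgroup.finiteIndex_of_le U.le_topologicalClosure
  | succ d ih =>
    have h1 := h _ (open_of_fin ih)
    refine Subgroup.finiteIndex_of_le (H := (⁅(Der U d).topologicalClosure,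
      (Der U d).topologicalClosure⁆ : Subgroup Γ).topologicalClosure) ?_
    exact Subgroup.topologicalClosure_minimal _ (comm_closure_le _)
      (Subgroup.isClosed_topologicalClosure _)

/-- The closure of the image of a finite index subgroup under a dense homomorphism. -/
theorem fin_of_dense {G : Type} [Group G] (ι : G →* Γ) (hι : DenseRange ι) (K : Subgroup G)
    [hK : K.FiniteIndex] : (K.map ι).topologicalClosure.FiniteIndex := by
  classical
  set C := (K.map ι).topologicalClosure with hC
  have hfin : Finite (G ⧸ K) := inferInstance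
  have hcl : IsClosed (⋃ q : G ⧸ K, (fun x => ι q.out * x) '' (C : Set Γ)) := by
    refine isClosed_iUnion_of_finite fun q => ?_
    exact (Homeomorph.mulLeft (ι q.out)).isClosedMap _ (Subgroup.isClosed_topologicalClosure _)
  have hsub : range ι ⊆ ⋃ q : G ⧸ K, (fun x => ι q.out * x) '' (C : Set Γ) := by
    rintro _ ⟨g, rfl⟩
    refine mem_iUnion.2 ⟨(g : G ⧸ K), ι ((g : G ⧸ K).out⁻¹ * g), ?_, ?_⟩
    · refine Subgroup.le_topologicalClosure _ (Subgroup.mem_map_of_mem ι ?_)
      rw [← QuotientGroup.eq]
      exact QuotientGroup.out_eq' _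
    · simp
  have huniv : (⋃ q : G ⧸ K, (fun x => ι q.out * x) '' (C : Set Γ)) = univ := by
    rw [eq_univ_iff_forall]
    intro x
    have := hcl.closure_subset_iff.2 hsub
    exact this (hι x)
  have hs : Function.Surjective (fun q : G ⧸ K => ((ι q.out : Γ) : Γ ⧸ C)) := by
    intro y
    obtain ⟨x, rfl⟩ := QuotientGroup.mk_surjective y
    have hx : x ∈ ⋃ q : G ⧸ K, (fun x => ι q.out * x) '' (C : Set Γ) := huniv ▸ mem_univ x
    obtain ⟨q, c, hc, hq⟩ := mem_iUnion.1 hx
    refine ⟨q, ?_⟩
    rw [QuotientGroup.eq]
    have : (ι q.out)⁻¹ * x = c := by rw [← hq]; simp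
    rw [this]
    exact hc
  have : Finite (Γ ⧸ C) := Finite.of_surjective _ hs
  exact Subgroup.finiteIndex_of_finite_quotient

/-- (b) ⟹ infinite abelianization of the preimage. -/
theorem inf_ab_of_open {G : Type} [Group G] (ι : G →* Γ) (hι : DenseRange ι)
    (U : Subgroup Γ) (hU : ¬ (⁅U, U⁆ : Subgroup Γ).topologicalClosure.FiniteIndex)
    (hf : (U.comap ι).FiniteIndex) : Infinite (Abelianization (U.comap ι)) := by
  by_contra hfin
  rw [not_infinite_iff_finite] at hfin
  apply hU
  have h1 : (commutator (U.comap ι)).FiniteIndex := by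
    have : Finite ((U.comap ι) ⧸ commutator (U.comap ι)) := hfin
    exact Subgroup.finiteIndex_of_finite_quotient
  have h2 : ((commutator (U.comap ι)).map (U.comap ι).subtype).FiniteIndex := by
    constructor
    rw [Subgroup.index_map_subtype]
    exact mul_ne_zero h1.index_ne_zero hf.index_ne_zero
  have h3 := fin_of_dense ι hι ((commutator (U.comap ι)).map (U.comap ι).subtype)
  refine Subgroup.finiteIndex_of_le (H := (((commutator (U.comap ι)).map
    (U.comap ι).subtype).map ι).topologicalClosure) ?_
  refine Subgroup.topologicalClosure_minimal _ ?_ (Subgroup.isClosed_topologicalClosure _)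
  refine le_trans ?_ (Subgroup.le_topologicalClosure _)
  rw [Subgroup.map_map, commutator_def, Subgroup.map_commutator]
  refine Subgroup.commutator_mono ?_ ?_ <;>
  · rw [Subgroup.map_le_iff_le_comap]
    intro x _
    exact x.2

end gen

end Pool.Agent.Lib_helper96.VR
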